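import Mathlib

set_option autoImplicit false

namespace Pool.Agent.H.MP_8d5d9c_nt

open Filter Topology Set

set_option maxHeartbeats 300000

noncomputable def T (y : ℝ) : ℝ := Int.fract (1 / y)

noncomputable def hw : List ℕ → ℝ → ℝ
  | [], u => u
  | a :: w, u => 1 / (a + 1 + hw w u)

noncomputable def D : List ℕ → ℝ → ℝ
  | [], _ => 1
  | a :: w, u => (a + 1 + hw w u) * D w u

noncomputable def ind (x t : ℝ) : ℝ := if x < t then 1 else 0

noncomputable def cn (t : ℝ) : List ℕ → ℝ → ℝ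
  | [], _ => 0
  | a :: w, u => ind (hw (a :: w) u) t + cn t w u

theorem ind_mem (x t : ℝ) : 0 ≤ ind x t ∧ ind x t ≤ 1 := by unfold ind; split_ifs <;> simp

theorem hw_mem (w : List ℕ) {u : ℝ} (h : u ∈ Icc (0 : ℝ) 1) : hw w u ∈ Icc (0 : ℝ) 1 := by
  induction w with
  | nil => exact h
  | cons a w ih =>
    have := ih.1
    exact ⟨by rw [hw]; positivity, div_le_one_of_le₀ (by linarith [a.cast_nonneg (α := ℝ)]) (by positivity)⟩

theorem hw_mem' (w : List ℕ) {u : ℝ} (h : u ∈ Ioo (0 : ℝ) 1) : hw w u ∈ Ioo (0 : ℝ) 1 := by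
  induction w with
  | nil => exact h
  | cons a w ih =>
    have := ih.1
    exact ⟨by rw [hw]; positivity, (div_lt_one (by positivity)).mpr (by linarith [a.cast_nonneg (α := ℝ)])⟩

theorem hw_app (v w : List ℕ) (u : ℝ) : hw (v ++ w) u = hw v (hw w u) := by
  induction v with
  | nil => rfl
  | cons a v ih => simp [hw, ih]

theorem D_app (v w : List ℕ) (u : ℝ) : D (v ++ w) u = D v (hw w u) * D w u := by
  induction v with
  | nil => simp [D]
  | cons a v ih => simp [D, ih, hw_app, mul_assoc]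

theorem cn_app (t : ℝ) (v w : List ℕ) (u : ℝ) : cn t (v ++ w) u = cn t v (hw w u) + cn t w u := by
  induction v with
  | nil => simp [cn]
  | cons a v ih => simp [cn, hw, ih, hw_app, add_assoc]

theorem cn_le (t : ℝ) (w : List ℕ) (u : ℝ) : cn t w u ≤ w.length := by
  induction w with
  | nil => simp [cn]
  | cons a w ih => simp only [cn, List.length_cons]; push_cast; linarith [ind_mem (hw (a :: w) u) t]

theorem D2 (a b : ℕ) (w : List ℕ) {u : ℝ} (h : u ∈ Icc (0 : ℝ) 1) :
    D (a :: b :: w) u = (a + 1) * D (b :: w) u + D w u := by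
  have := (hw_mem w h).1
  simp only [D, hw]; field_simp

theorem D_ge : ∀ (w : List ℕ) {u : ℝ}, u ∈ Icc (0 : ℝ) 1 → 2 / 3 * (3 / 2) ^ w.length ≤ D w u
  | [], _, _ => by simp [D]; norm_num
  | [a], _, h => by simp [D, hw]; linarith [h.1, a.cast_nonneg (α := ℝ)]
  | a :: b :: w, _, h => by
    have h1 := D_ge (b :: w) h
    have h2 := D_ge w h
    have : (0 : ℝ) < (3 / 2) ^ w.length := by positivity
    rw [D2 a b w h]
    simp only [List.length_cons, pow_succ] at *
    nlinarith [a.cast_nonneg (α := ℝ)]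

theorem D_pos (w : List ℕ) {u : ℝ} (h : u ∈ Icc (0 : ℝ) 1) : 0 < D w u :=
  lt_of_lt_of_le (by positivity) (D_ge w h)

theorem D_dist : ∀ (w : List ℕ) {u v : ℝ}, u ∈ Icc (0 : ℝ) 1 → v ∈ Icc (0 : ℝ) 1 → D w u ≤ 2 * D w v
  | [], _, _, _, _ => by simp [D]
  | [a], _, _, h, g => by simp [D, hw]; linarith [h.2, g.1, a.cast_nonneg (α := ℝ)]
  | a :: b :: w, _, _, h, g => by
    have h1 := D_dist (b :: w) h g
    have h2 := D_dist w h g
    rw [D2 a b w h, D2 a b w g]
    nlinarith [a.cast_nonneg (α := ℝ)]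

theorem D_ones {u : ℝ} (h : u ∈ Icc (0 : ℝ) 1) : ∀ L, D (List.replicate L 0) u ≤ 2 * (5 / 3) ^ L
  | 0 => by simp [D]
  | 1 => by simp [D, hw]; linarith [h.2]
  | L + 2 => by
    have h1 := D_ones h (L + 1)
    have h2 := D_ones h L
    have : (0 : ℝ) < (5 / 3) ^ L := by positivity
    simp only [List.replicate_succ, pow_succ] at *
    rw [D2 _ _ _ h]
    push_cast
    linarith

theorem cn_ones {u : ℝ} (h : u ∈ Icc (0 : ℝ) 1) (L : ℕ) : cn (1 / 2) (List.replicate L 0) u = 0 := by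
  induction L with
  | zero => rfl
  | succ L ih =>
    have := hw_mem (List.replicate L 0) h
    rw [List.replicate_succ, cn, ih, add_zero, ind, if_neg (not_lt.mpr ?_)]
    exact one_div_le_one_div_of_le (by have := this.1; positivity) (by simp; linarith [this.2])

theorem hw_sub (w : List ℕ) {u v : ℝ} (h : u ∈ Icc (0 : ℝ) 1) (g : v ∈ Icc (0 : ℝ) 1) :
    (-1) ^ w.length * (hw w v - hw w u) = (v - u) / (D w u * D w v) := by
  induction w with
  | nil => simp [hw, D]
  | cons a w ih =>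
    have := (hw_mem w h).1
    have := (hw_mem w g).1
    have := D_pos w h
    have := D_pos w g
    rw [eq_div_iff (by positivity)] at ih
    simp only [hw, D, List.length_cons, pow_succ, ← ih]
    field_simp; ring

theorem close (w : List ℕ) {u v : ℝ} (h : u ∈ Icc (0 : ℝ) 1) (g : v ∈ Icc (0 : ℝ) 1) :
    hw w v - hw w u ≤ 9 / 4 * (4 / 9) ^ w.length := by
  have e := congrArg abs (hw_sub w h g)
  have a := mul_le_mul (D_ge w h) (D_ge w g) (by positivity) (D_pos w h).le
  rw [abs_mul, abs_neg_one_pow, one_mul, abs_div, abs_of_pos (mul_pos (D_pos w h) (D_pos w g))] at e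
  refine (le_abs_self _).trans (e.trans_le ((div_le_div₀ zero_le_one (abs_le.mpr
    ⟨by linarith [h.2, g.1], by linarith [h.1, g.2]⟩) (by positivity) a).trans_eq ?_))
  rw [mul_mul_mul_comm, ← mul_pow, div_eq_iff (by positivity), mul_mul_mul_comm, ← mul_pow]
  norm_num

theorem cn_cmp {t s : ℝ} {l : ℕ} (hl : t + 9 / 4 * (4 / 9) ^ l ≤ s) (w : List ℕ) {u v : ℝ}
    (h : u ∈ Icc (0 : ℝ) 1) (g : v ∈ Icc (0 : ℝ) 1) : cn t w u ≤ l + cn s w v := by
  suffices cn t w u ≤ min w.length l + cn s w v from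
    this.trans (by gcongr; exact_mod_cast min_le_right _ _)
  induction w with
  | nil => simp [cn]
  | cons a w ih =>
    rw [cn, cn, List.length_cons]
    rcases le_or_gt l w.length with c | c
    · rw [min_eq_right c] at ih
      rw [min_eq_right (by omega)]
      have := close (a :: w) h g
      have e : (4 / 9 : ℝ) ^ (a :: w).length ≤ (4 / 9) ^ l :=
        pow_le_pow_of_le_one (by norm_num) (by norm_num) (by simp; omega)
      have : ind (hw (a :: w) u) t ≤ ind (hw (a :: w) v) s := by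
        unfold ind; split_ifs <;> linarith
      linarith
    · rw [min_eq_left c.le] at ih
      rw [min_eq_left (by omega)]
      push_cast
      linarith [ind_mem (hw (a :: w) u) t, ind_mem (hw (a :: w) v) s]

theorem T_hw (a : ℕ) {u : ℝ} (h : u ∈ Ioo (0 : ℝ) 1) : T (1 / (a + 1 + u)) = u := by
  rw [T, one_div_one_div, ← Nat.cast_succ, Int.fract_natCast_add, Int.fract_eq_self.mpr ⟨h.1.le, h.2⟩]

theorem T_it (w : List ℕ) {u : ℝ} (h : u ∈ Ioo (0 : ℝ) 1) : T^[w.length] (hw w u) = u := by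
  induction w with
  | nil => rfl
  | cons a w ih => rw [List.length_cons, Function.iterate_succ_apply, hw, T_hw a (hw_mem' w h), ih]

theorem cn_eq (t : ℝ) (w : List ℕ) {u : ℝ} (h : u ∈ Ioo (0 : ℝ) 1) :
    ∑ i ∈ Finset.range w.length, ind (T^[i] (hw w u)) t = cn t w u := by
  induction w with
  | nil => rfl
  | cons a w ih =>
    rw [List.length_cons, Finset.sum_range_succ', cn, ← ih, add_comm]
    simp only [Function.iterate_succ_apply, hw, T_hw a (hw_mem' w h), Function.iterate_zero_apply]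

theorem dig {z : ℝ} (h : z ∈ Ioo (0 : ℝ) 1) : ∃ a : ℕ, z = 1 / (a + 1 + T z) := by
  have : 1 ≤ ⌊1 / z⌋₊ := Nat.le_floor (by simpa using (one_le_inv₀ h.1).mpr h.2.le)
  refine ⟨⌊1 / z⌋₊ - 1, ?_⟩
  rw [Nat.cast_sub this, Nat.cast_one, sub_add_cancel, natCast_floor_eq_intCast_floor
    (by have := h.1; positivity), T, Int.floor_add_fract, one_div_one_div]

theorem blk (k : ℕ) {z : ℝ} (h : ∀ i, T^[i] z ∈ Ioo (0 : ℝ) 1) :
    ∃ w : List ℕ, w.length = k ∧ hw w (T^[k] z) = z := by
  induction k generalizing z with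
  | zero => exact ⟨[], rfl, rfl⟩
  | succ k ih =>
    obtain ⟨w, h1, h2⟩ := ih (z := T z) fun i => h (i + 1)
    obtain ⟨a, ha⟩ := dig (h 0)
    exact ⟨a :: w, by simp [h1], by rw [Function.iterate_succ_apply, hw, h2]; exact ha.symm⟩

theorem irr_it {z : ℝ} (h : Irrational z) (i : ℕ) : T^[i] (Int.fract z) ∈ Ioo (0 : ℝ) 1 := by
  have k : ∀ {z : ℝ}, Irrational z → Irrational (Int.fract z) := fun h => h.sub_intCast _
  suffices ∃ y, Irrational y ∧ T^[i] (Int.fract z) = Int.fract y by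
    obtain ⟨y, a, e⟩ := this
    exact e ▸ ⟨(Int.fract_nonneg y).lt_of_ne' (k a).ne_zero, Int.fract_lt_one y⟩
  induction i with
  | zero => exact ⟨z, h, rfl⟩
  | succ i ih =>
    obtain ⟨y, a, e⟩ := ih
    exact ⟨1 / Int.fract y, by simpa using k a, by rw [Function.iterate_succ_apply', e, T]⟩

theorem irr_of {z : ℝ} (h : ∀ i, T^[i] z ∈ Ioo (0 : ℝ) 1) : Irrational z := by
  rintro ⟨r, rfl⟩
  have k : ∀ q : ℕ, ∀ x : ℝ, 0 < q → (∃ p : ℤ, x * q = p) → ¬ ∀ i, T^[i] x ∈ Ioo (0 : ℝ) 1 := by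
    intro q
    induction q using Nat.strong_induction_on with
    | _ q ih =>
      rintro x q0 ⟨p, e⟩ h
      have h0 : x ∈ Ioo (0 : ℝ) 1 := h 0
      have q1 : (0 : ℝ) < q := by exact_mod_cast q0
      have p0 : 0 < p := by exact_mod_cast e ▸ mul_pos h0.1 q1
      have p1 : p < q := by exact_mod_cast (show (p : ℝ) < q by nlinarith [h0.2])
      lift p to ℕ using p0.le
      refine ih p (by exact_mod_cast p1) (T x) (by exact_mod_cast p0) ⟨q - ⌊1 / x⌋ * p, ?_⟩
        fun i => h (i + 1)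
      have := h0.1.ne'
      push_cast at e ⊢
      rw [T, Int.fract, sub_mul, ← e]; field_simp
  exact k r.den r r.pos ⟨r.num, by exact_mod_cast r.mul_den_eq_num⟩ h

theorem hw_rat (w : List ℕ) : ∃ r : ℚ, hw w 0 = r := by
  induction w with
  | nil => exact ⟨0, by simp [hw]⟩
  | cons a w ih => obtain ⟨r, e⟩ := ih; exact ⟨1 / (a + 1 + r), by simp [hw, e]⟩

theorem hw_cont (w : List ℕ) : ContinuousOn (hw w) (Icc 0 1) := by
  induction w with
  | nil => exact continuousOn_id
  | cons a w ih =>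
    exact continuousOn_const.div (continuousOn_const.add ih) fun u h => by
      have := (hw_mem w h).1; positivity

end Pool.Agent.H.MP_8d5d9c_nt
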