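import Pool.Agent.H.MP_8d5d9c_nt.A

set_option autoImplicit false

namespace Pool.Agent.H.MP_8d5d9c_nt

open Filter Topology Set

set_option maxHeartbeats 300000

theorem hit (w : List ℕ) {y η : ℝ} (hη : ∀ u ∈ Icc (0 : ℝ) 1, ∀ v ∈ Icc (0 : ℝ) 1, 4 * η * (D w u * D w v) ≤ 1)
    (h : |y - hw w (1 / 2)| ≤ η) : ∃ u ∈ Ioo (0 : ℝ) 1, hw w u = y := by
  have m1 : (1 / 4 : ℝ) ∈ Icc (0 : ℝ) 1 := by norm_num
  have m2 : (1 / 2 : ℝ) ∈ Icc (0 : ℝ) 1 := by norm_num
  have m3 : (3 / 4 : ℝ) ∈ Icc (0 : ℝ) 1 := by norm_num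
  have a := hw_sub w m1 m2
  have b := hw_sub w m2 m3
  have a' : η ≤ (1 / 2 - 1 / 4) / (D w (1 / 4) * D w (1 / 2)) :=
    (le_div_iff₀ (mul_pos (D_pos w m1) (D_pos w m2))).mpr (by linarith [hη _ m1 _ m2])
  have b' : η ≤ (3 / 4 - 1 / 2) / (D w (1 / 2) * D w (3 / 4)) :=
    (le_div_iff₀ (mul_pos (D_pos w m2) (D_pos w m3))).mpr (by linarith [hη _ m2 _ m3])
  rw [← a] at a'
  rw [← b] at b'
  have := abs_le.mp h
  obtain ⟨u, hu, e⟩ := intermediate_value_uIcc ((hw_cont w).mono (uIcc_subset_Icc m1 m3))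
    (show y ∈ _ from by
      rcases neg_one_pow_eq_or ℝ w.length with c | c <;> rw [c] at a' b'
      · exact mem_uIcc_of_le (by linarith) (by linarith)
      · exact mem_uIcc_of_ge (by linarith) (by linarith))
  rw [uIcc_of_le (by norm_num)] at hu
  exact ⟨u, ⟨by linarith [hu.1], by linarith [hu.2]⟩, e⟩

theorem hug {X : ℝ → ℝ} (hc : ContinuousOn X (Icc 0 1)) (hi : Irrational (X 0)) {k : ℕ} {c C : ℝ}
    (c0 : 0 < c) (C0 : 0 < C) (hX : ∀ u ∈ Icc (0 : ℝ) 1, ∀ v ∈ Icc (0 : ℝ) 1, u ≤ v →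
      c * (v - u) ≤ (-1) ^ k * (X v - X u) ∧ (-1) ^ k * (X v - X u) ≤ C * (v - u)) (R : ℕ) :
    ∃ A N : ℕ, R ≤ N ∧ ∀ u ∈ Icc (0 : ℝ) 1, ∑ i ∈ Finset.range N,
      ind (T^[i] (Int.fract (X (1 / (A + 1 + u))))) (1 / 2) ≤ 7 / 12 * N := by
  obtain ⟨j, h1, h2, h3, h4⟩ := ((eventually_ge_atTop 17).and ((eventually_ge_atTop R).and
    (((tendsto_pow_atTop_atTop_of_one_lt (r := (6561 / 256) / (15625 / 729 : ℝ))
      (by norm_num)).eventually_ge_atTop (9 / 4 * (32768 * C / c ^ 2))).and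
    ((tendsto_pow_atTop_atTop_of_one_lt (r := (6561 / 256 : ℝ))
      (by norm_num)).eventually_ge_atTop (9 / 4 * (8 / c)))))).exists
  obtain ⟨n, n1, n2, n3⟩ : ∃ n, 4 * j ≤ n ∧ n ≤ 4 * j + 1 ∧ (-1 : ℝ) ^ n = -(-1) ^ k := by
    rcases neg_one_pow_eq_or ℝ k with e | e
    · exact ⟨4 * j + 1, by omega, le_rfl, by simp [e, pow_succ, pow_mul]⟩
    · exact ⟨4 * j, le_rfl, by omega, by simp [e, pow_mul]; norm_num⟩
  obtain ⟨w, rfl, hw1⟩ := blk n (irr_it hi)
  have t := irr_it hi w.length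
  have t' := irr_it hi (w.length + 1)
  rw [Function.iterate_succ_apply'] at t'
  generalize T^[w.length] (Int.fract (X 0)) = τ at *
  obtain ⟨a, ha⟩ := dig t
  generalize T τ = τ' at *
  have t1 := Ioo_subset_Icc_self t
  obtain ⟨W, hW⟩ : ∃ W, W = w ++ (a + 1) :: List.replicate (3 * j) 0 := ⟨_, rfl⟩
  obtain ⟨E, hE⟩ : ∃ E, E = D w τ * (a + 2) := ⟨_, rfl⟩
  have d0 := D_pos w t1
  have a0 := a.cast_nonneg (α := ℝ)
  have E1 : 4 / 9 * (6561 / 256) ^ j ≤ E ^ 2 := by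
    have : (3 / 2 : ℝ) ^ (4 * j) ≤ (3 / 2) ^ w.length := pow_le_pow_right₀ (by norm_num) n1
    calc _ = (2 / 3 * (3 / 2 : ℝ) ^ (4 * j)) ^ 2 := by
          rw [mul_pow, ← pow_mul, mul_comm (4 * j), ← mul_assoc, pow_mul]; norm_num
      _ ≤ _ := by gcongr; nlinarith [D_ge w t1]
  have E0 : 0 < E := by rw [hE]; positivity
  have dW : ∀ u ∈ Icc (0 : ℝ) 1, D W u ≤ 8 * E * (5 / 3) ^ (3 * j) := fun u hu => by
    have b := hw_mem (List.replicate (3 * j) 0) hu
    have := b.1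
    rw [hW, D_app, D]
    calc _ ≤ 2 * D w τ * ((2 * (a + 2)) * (2 * (5 / 3) ^ (3 * j))) := by
          gcongr
          · exact mul_nonneg (by positivity) (D_pos _ hu).le
          · exact D_dist w (hw_mem _ hu) t1
          · exact (D_pos _ hu).le
          · push_cast; linarith [b.2]
          · exact D_ones hu _
      _ = _ := by rw [hE]; ring
  have m2 : (1 / 2 : ℝ) ∈ Icc (0 : ℝ) 1 := by norm_num
  obtain ⟨ρ, hρ⟩ : ∃ ρ, ρ = (-1) ^ k * (hw W (1 / 2) - Int.fract (X 0)) := ⟨_, rfl⟩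
  have r : 0 < ρ ∧ ρ ≤ 8 / E ^ 2 := by
    have b := hw_mem' (List.replicate (3 * j) 0) (show (1 / 2 : ℝ) ∈ Ioo (0 : ℝ) 1 by norm_num)
    have s := hw_mem ((a + 1) :: List.replicate (3 * j) 0) m2
    have e := hw_sub w s t1
    rw [n3, hw1, ← hw_app, ← hW] at e
    rw [hρ, show ∀ x y z : ℝ, x * (y - z) = -x * (z - y) from fun _ _ _ => by ring, e]
    have d1 := D_pos w s
    have d2 := D_dist w t1 s
    generalize D w (hw ((a + 1) :: List.replicate (3 * j) 0) (1 / 2)) = d at *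
    rw [hw]
    generalize hw (List.replicate (3 * j) 0) (1 / 2) = z at *
    have z0 := b.1
    have z1 := t'.1
    have f : τ - 1 / ((a + 1 : ℕ) + 1 + z) = (1 + z - τ') / ((a + 1 + τ') * (a + 2 + z)) := by
      rw [ha]; push_cast; field_simp; ring
    rw [f]
    refine ⟨div_pos (div_pos (by linarith [t'.2]) (by positivity)) (by positivity), ?_⟩
    rw [div_div, hE]
    calc _ ≤ 2 / (((a + 2) / 2 * (a + 2)) * (D w τ / 2 * D w τ)) := by
          refine div_le_div₀ zero_le_two (by linarith [b.2]) (by positivity) ?_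
          exact mul_le_mul (mul_le_mul (by linarith) (by linarith) (by positivity) (by positivity))
            (mul_le_mul_of_nonneg_right (by linarith) d0.le) (by positivity) (by positivity)
      _ = _ := by field_simp; ring
  have s2 : (-1 : ℝ) ^ k * (-1) ^ k = 1 := by rw [← mul_pow]; simp
  have ρc : ρ ≤ c := r.2.trans (by
    rw [div_le_iff₀ (by positivity), ← div_le_iff₀' c0]; linarith)
  obtain ⟨v, hv, e⟩ := intermediate_value_Icc zero_le_one
    (f := fun v => (-1) ^ k * (X v - X 0)) (continuousOn_const.mul (hc.sub continuousOn_const))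
    (show ρ ∈ _ from ⟨by simp [r.1.le], by linarith [(hX 0 (by simp) 1 (by simp) zero_le_one).1]⟩)
  have v0 : 0 < v := hv.1.lt_of_ne (by rintro rfl; simp at e; linarith [r.1])
  have v1 : v ≤ ρ / c := by
    rw [le_div_iff₀ c0]; linarith [(hX 0 (by simp) v hv hv.1).1, show _ * _ = ρ from e]
  have e' : X v - ⌊X 0⌋ = hw W (1 / 2) := by
    have := congrArg ((-1 : ℝ) ^ k * ·) (e.trans hρ)
    simp only [← mul_assoc, s2, one_mul, Int.fract] at this
    linarith
  have A1 : 1 ≤ ⌊1 / v⌋₊ := Nat.le_floor (by simpa using (one_le_inv₀ v0).mpr hv.2)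
  refine ⟨⌊1 / v⌋₊ - 1, W.length, by simp [hW]; omega, fun u hu => ?_⟩
  rw [Nat.cast_sub A1, Nat.cast_one, sub_add_cancel]
  have f1 := Nat.floor_le (show 0 ≤ 1 / v by positivity)
  have f2 := Nat.lt_floor_add_one (1 / v)
  have A2 : (1 : ℝ) ≤ ⌊1 / v⌋₊ := by exact_mod_cast A1
  generalize (⌊1 / v⌋₊ : ℝ) = A at *
  have u0 := hu.1
  have m : 1 / (A + u) ∈ Icc (0 : ℝ) 1 :=
    ⟨by positivity, div_le_one_of_le₀ (by linarith) (by positivity)⟩
  have g : |1 / (A + u) - v| ≤ 2 * v ^ 2 := by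
    rw [le_div_iff₀ v0] at f1
    rw [div_lt_iff₀ v0] at f2
    rw [show 1 / (A + u) - v = (1 - (A + u) * v) / (A + u) by field_simp, abs_div,
      abs_of_pos (show 0 < A + u by positivity), div_le_iff₀ (by positivity)]
    exact (abs_le.mpr ⟨by nlinarith [hu.2], by nlinarith⟩ : _ ≤ v).trans (by nlinarith)
  have g' : |X (1 / (A + u)) - X v| ≤ C * (2 * v ^ 2) := by
    have k : ∀ u ∈ Icc (0 : ℝ) 1, ∀ v ∈ Icc (0 : ℝ) 1, u ≤ v → |X v - X u| ≤ C * |v - u| :=
      fun u hu v hv h => by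
        have := hX u hu v hv h
        rw [← one_mul |_|, ← abs_neg_one_pow k, ← abs_mul, abs_of_nonneg (sub_nonneg.mpr h),
          abs_of_nonneg ((mul_nonneg c0.le (sub_nonneg.mpr h)).trans this.1)]
        exact this.2
    rcases le_total v (1 / (A + u)) with h | h
    · exact (k _ hv _ m h).trans (by gcongr)
    · rw [abs_sub_comm] at g ⊢
      exact (k _ m _ hv h).trans (by gcongr)
  obtain ⟨u', hu', e2⟩ := hit W (y := X (1 / (A + u)) - ⌊X 0⌋) (η := C * (2 * v ^ 2))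
    (fun x hx y hy => by
      have := D_pos W hy
      have := D_pos W hx
      rw [div_pow, le_div_iff₀ (by positivity)] at h3
      calc _ ≤ 4 * (C * (2 * (8 / E ^ 2 / c) ^ 2)) *
            (8 * E * (5 / 3) ^ (3 * j) * (8 * E * (5 / 3) ^ (3 * j))) := by
            gcongr
            · exact v1.trans (by gcongr; exact r.2)
            · exact dW x hx
            · exact dW y hy
        _ = 32768 * C / c ^ 2 * ((5 / 3) ^ (3 * j)) ^ 2 / E ^ 2 := by field_simp; ring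
        _ ≤ _ := by
            rw [div_le_one (by positivity), ← pow_mul, mul_right_comm, pow_mul]
            norm_num at h3 ⊢
            linarith) (by rw [← e']; simpa using g')
  have p := hw_mem' W hu'
  rw [← Int.fract_sub_intCast _ ⌊X 0⌋, ← e2, Int.fract_eq_self.mpr ⟨p.1.le, p.2⟩, cn_eq _ _ hu', hW,
    cn_app, cn, cn_ones (Ioo_subset_Icc_self hu')]
  have q1 : (17 : ℝ) ≤ j := by exact_mod_cast h1
  have q2 : (4 * j : ℝ) ≤ w.length := by exact_mod_cast n1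
  have q3 : (w.length : ℝ) ≤ 4 * j + 1 := by exact_mod_cast n2
  simp only [List.length_append, List.length_cons, List.length_replicate]
  push_cast
  linarith [cn_le (1 / 2) w (hw ((a + 1) :: List.replicate (3 * j) 0) u'),
    ind_mem (hw ((a + 1) :: List.replicate (3 * j) 0) u') (1 / 2)]

end Pool.Agent.H.MP_8d5d9c_nt
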