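import Pool.Agent.H.MP_8d5d9c_nt.A

set_option autoImplicit false

namespace Pool.Agent.H.MP_8d5d9c_nt

open Filter Topology Set MeasureTheory ProbabilityTheory

set_option maxHeartbeats 300000

noncomputable def F (t : ℝ) : ℝ := Real.log (1 + t) / Real.log 2

noncomputable def μ : Measure ℝ := (volume.restrict (Ico (0 : ℝ) 1)).map fun x => Real.exp (x * Real.log 2) - 1

theorem l2 : 0 < Real.log 2 := Real.log_pos one_lt_two

instance ip : IsProbabilityMeasure μ := by
  have : IsProbabilityMeasure (volume.restrict (Ico (0 : ℝ) 1)) := ⟨by simp⟩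
  exact Measure.isProbabilityMeasure_map (by fun_prop)

theorem F_mono {s t : ℝ} (hs : 0 ≤ s) (h : s ≤ t) : F s ≤ F t ∧ F t ≤ F s + 2 * (t - s) := by
  have := l2
  refine ⟨by unfold F; gcongr, ?_⟩
  rw [← sub_le_iff_le_add', F, F, ← sub_div, ← Real.log_div (by linarith) (by linarith),
    div_le_iff₀ this]
  refine (Real.log_le_sub_one_of_pos (div_pos (by linarith) (by linarith))).trans ?_
  rw [div_sub_one (by linarith), div_le_iff₀ (by linarith)]
  nlinarith [Real.log_two_gt_d9, mul_nonneg hs (sub_nonneg.mpr h)]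

theorem F0 : F 0 = 0 := by simp [F]

theorem F1 : F 1 = 1 := by rw [F, one_add_one_eq_two, div_self l2.ne']

theorem lt_F {x s : ℝ} (hs : 0 ≤ s) : Real.exp (x * Real.log 2) - 1 < s ↔ x < F s := by
  rw [sub_lt_iff_lt_add', F, lt_div_iff₀ l2, Real.lt_log_iff_exp_lt (by linarith)]

theorem le_F {x s : ℝ} (hs : 0 ≤ s) : Real.exp (x * Real.log 2) - 1 ≤ s ↔ x ≤ F s := by
  rw [sub_le_iff_le_add', F, le_div_iff₀ l2, Real.le_log_iff_exp_le (by linarith)]

theorem mIoc {a b : ℝ} (ha : 0 ≤ a) (h : a ≤ b) (hb : b ≤ 1) : μ (Ioc a b) = ENNReal.ofReal (F b - F a) := by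
  have e : (fun x => Real.exp (x * Real.log 2) - 1) ⁻¹' Ioc a b = Ioc (F a) (F b) := ext fun x => by
    simp only [mem_preimage, mem_Ioc, ← not_le, le_F ha, le_F (ha.trans h)]
  rw [μ, Measure.map_apply (by fun_prop) measurableSet_Ioc, e, restrict_Ico_eq_restrict_Ioc,
    Measure.restrict_apply measurableSet_Ioc, inter_eq_left.mpr (Ioc_subset_Ioc
      (F0 ▸ (F_mono le_rfl ha).1) (F1 ▸ (F_mono (ha.trans h) hb).1)), Real.volume_Ioc]

theorem mIio {s : ℝ} (hs : 0 ≤ s) (h : s ≤ 1) : μ (Iio s) = ENNReal.ofReal (F s) := by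
  have e : (fun x => Real.exp (x * Real.log 2) - 1) ⁻¹' Iio s = Iio (F s) := ext fun x => lt_F hs
  rw [μ, Measure.map_apply (by fun_prop) measurableSet_Iio, e, Measure.restrict_apply measurableSet_Iio,
    show Iio (F s) ∩ Ico 0 1 = Ico 0 (F s) from ext fun x => ⟨fun a => ⟨a.2.1, a.1⟩,
      fun a => ⟨a.2, a.1, a.2.trans_le (F1 ▸ (F_mono hs h).1)⟩⟩, Real.volume_Ico, sub_zero]

theorem mae : ∀ᵐ x ∂μ, x ∈ Ioo (0 : ℝ) 1 := by
  refine (ae_map_iff (by fun_prop) measurableSet_Ioo).mpr ?_
  rw [← Measure.restrict_congr_set Ioo_ae_eq_Ico]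
  refine ae_restrict_of_forall_mem measurableSet_Ioo fun x hx => ⟨?_, ?_⟩
  · rw [← not_le, le_F le_rfl, F0, not_le]; exact hx.1
  · rw [lt_F zero_le_one, F1]; exact hx.2

theorem mT : Measurable T := by unfold T; fun_prop

theorem mp : MeasurePreserving T μ μ := by
  have := Measure.isProbabilityMeasure_map (μ := μ) mT.aemeasurable
  suffices ∀ s, μ.map T (Iio s) = μ (Iio s) from ⟨mT, Measure.ext_of_Ici _ _ fun s => by
    rw [← compl_Iio, prob_compl_eq_one_sub measurableSet_Iio, prob_compl_eq_one_sub measurableSet_Iio, this]⟩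
  have k : ∀ s, 0 ≤ s → s ≤ 1 → μ.map T (Iio s) = μ (Iio s) := fun s s0 s1 => by
    rw [Measure.map_apply mT measurableSet_Iio, mIio s0 s1, measure_congr
      (t := ⋃ a : ℕ, Ioc (1 / (a + 1 + s : ℝ)) (1 / (a + 1))) ?_, measure_iUnion ?_
        fun _ => measurableSet_Ioc]
    · have n : ∀ a : ℕ, (1 / (a + 1 + s : ℝ)) ≤ (1 / (a + 1)) := fun a =>
        one_div_le_one_div_of_le (by positivity) (by linarith)
      rw [tsum_congr fun a => mIoc (by positivity) (n a) (div_le_one_of_le₀ (by simp) (by positivity))]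
      have hs : HasSum (fun a : ℕ => F (1 / (a + 1)) - F (1 / (a + 1 + s : ℝ))) (F s) := by
        rw [hasSum_iff_tendsto_nat_of_nonneg fun a => sub_nonneg.mpr (F_mono (by positivity) (n a)).1]
        have e : ∀ a : ℕ, F (1 / (a + 1)) - F (1 / (a + 1 + s : ℝ)) =
            F (s / (a + 1)) - F (s / ((a + 1 : ℕ) + 1)) := fun a => by
          simp only [F, ← sub_div]
          rw [← Real.log_div (by positivity) (by positivity), ← Real.log_div (by positivity) (by positivity)]
          congr 2; push_cast; field_simp; ring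
        simp only [e, Finset.sum_range_sub' fun a : ℕ => F (s / (a + 1))]
        have c : ContinuousAt F 0 := by unfold F; fun_prop (disch := simp)
        simpa [F0] using (c.tendsto.comp (tendsto_const_nhds.div_atTop (tendsto_atTop_add_const_right _ 1
          tendsto_natCast_atTop_atTop) : Tendsto (fun a : ℕ => s / (a + 1)) _ _)).const_sub (F s)
      rw [← ENNReal.ofReal_tsum_of_nonneg (fun a => sub_nonneg.mpr (F_mono (by positivity) (n a)).1)
        hs.summable, hs.tsum_eq]
    · refine (pairwise_disjoint_on _).mpr fun a b h => disjoint_left.mpr fun x h1 h2 => ?_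
      have : (a : ℝ) + 1 ≤ b := by exact_mod_cast h
      exact (h1.1.trans_le h2.2).not_ge (one_div_le_one_div_of_le (by positivity) (by linarith))
    · filter_upwards [mae] with x hx
      refine propext ⟨fun h => ?_, fun h => ?_⟩
      · obtain ⟨a, ha⟩ := dig hx
        have : 0 ≤ T x := Int.fract_nonneg _
        exact mem_iUnion.mpr ⟨a, (one_div_lt_one_div_of_lt (by positivity)
          (by linarith [show T x < s from h])).trans_eq ha.symm,
          ha.trans_le (one_div_le_one_div_of_le (by positivity) (by linarith))⟩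
      · obtain ⟨a, h1, h2⟩ := mem_iUnion.mp h
        rw [one_div_lt (by positivity) hx.1] at h1
        rw [le_one_div hx.1 (by positivity)] at h2
        exact (Int.fract_eq_iff.mpr ⟨by linarith, by linarith, a + 1, by simp⟩ :
          _ = 1 / x - (a + 1)).trans_lt (by linarith)
  intro s
  rcases le_total s 0 with h | h
  · have z : μ (Iio 0) = 0 := by rw [mIio le_rfl zero_le_one, F0, ENNReal.ofReal_zero]
    rw [measure_mono_null (Iio_subset_Iio h) z, measure_mono_null (Iio_subset_Iio h)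
      ((k 0 le_rfl zero_le_one).trans z)]
  rcases le_total s 1 with g | g
  · exact k s h g
  have z : μ (Iio 1) = 1 := by rw [mIio zero_le_one le_rfl, F1, ENNReal.ofReal_one]
  rw [prob_le_one.antisymm (z.ge.trans (measure_mono (Iio_subset_Iio g))),
    prob_le_one.antisymm (((k 1 zero_le_one le_rfl).trans z).ge.trans (measure_mono (Iio_subset_Iio g)))]

noncomputable def G (s : ℝ) : ℝ := μ.real (Iio s)

theorem G_le {t s : ℝ} (h0 : 0 ≤ t) (h1 : t ≤ 1) :
    (t ≤ s → G s ≤ F t + 2 * (s - t)) ∧ (s ≤ t → F t ≤ G s + 2 * (t - s)) := by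
  have e : ∀ {s}, 0 ≤ s → s ≤ 1 → G s = F s := fun a b => by
    rw [G, Measure.real, mIio a b, ENNReal.toReal_ofReal (F0 ▸ (F_mono le_rfl a).1)]
  refine ⟨fun h => ?_, fun h => ?_⟩
  · rcases le_total s 1 with g | g
    · exact e (h0.trans h) g ▸ (F_mono h0 h).2
    · linarith [(F_mono h0 h1).2, F1, show G s ≤ 1 from measureReal_le_one]
  · rcases le_total 0 s with g | g
    · exact e g (h.trans h1) ▸ (F_mono g h).2
    · linarith [(F_mono le_rfl h0).2, F0, show 0 ≤ G s from measureReal_nonneg]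

theorem samp : ∃ z : ℕ → ℝ, (∀ j i, T^[i] (z j) ∈ Ioo (0 : ℝ) 1) ∧ ∀ (i : ℕ) (s : ℚ),
    Tendsto (fun n : ℕ => (∑ j ∈ Finset.range n, ind (T^[i] (z j)) s) / n) atTop (𝓝 (G s)) := by
  obtain ⟨Ω, _, P, X, h1, h2, h3, _⟩ := exists_iid ℕ μ
  have a : ∀ᵐ ω ∂P, ∀ j i, T^[i] (X j ω) ∈ Ioo (0 : ℝ) 1 := ae_all_iff.mpr fun j => ae_all_iff.mpr fun i =>
    ((mp.iterate i).comp ((h2 j).measurePreserving (h1 j))).quasiMeasurePreserving.ae mae
  have b : ∀ᵐ ω ∂P, ∀ (i : ℕ) (s : ℚ), Tendsto (fun n : ℕ => (∑ j ∈ Finset.range n,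
      ind (T^[i] (X j ω)) s) / n) atTop (𝓝 (G s)) := ae_all_iff.mpr fun i => ae_all_iff.mpr fun s => by
    have m : Measurable fun x => ind (T^[i] x) s :=
      Measurable.ite (measurableSet_lt (mT.iterate i) measurable_const) measurable_const measurable_const
    have e : (fun ω => ind (T^[i] (X 0 ω)) s) = ((T^[i] ∘ X 0) ⁻¹' Iio s).indicator 1 := by
      ext; simp [ind, indicator]
    have ms := ((mT.iterate i).comp (h1 0)) (measurableSet_Iio (a := (s : ℝ)))
    have := strong_law_ae_real (fun j ω => ind (T^[i] (X j ω)) s)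
      (by rw [e]; exact (integrable_const 1).indicator ms)
      (fun j k h => (h3.indepFun h).comp m m) fun j => ((h2 j).identDistrib (h2 0)).comp m
    rwa [e, integral_indicator_one ms, ((mp.iterate i).comp
      ((h2 0).measurePreserving (h1 0))).measureReal_preimage measurableSet_Iio.nullMeasurableSet] at this
  obtain ⟨ω, h⟩ := (a.and b).exists
  exact ⟨_, h⟩

end Pool.Agent.H.MP_8d5d9c_nt
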