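import Pool.Agent.H.MP_8d5d9c_nt.B
import Pool.Agent.H.MP_8d5d9c_nt.C

set_option autoImplicit false

namespace Pool.Agent.H.MP_8d5d9c_nt

open Filter Topology Set

set_option maxHeartbeats 300000

theorem good (m : ℕ) (hm : 0 < m) : ∃ w : List ℕ, ∀ u ∈ Icc (0 : ℝ) 1, ∀ t ∈ Icc (0 : ℝ) 1,
    |cn t w u - w.length * F t| + 1 ≤ 7 / m * w.length := by
  obtain ⟨z, hz, hs⟩ := samp
  have m0 : (0 : ℝ) < m := by exact_mod_cast hm
  obtain ⟨l, h1, h2⟩ := ((eventually_gt_atTop 0).and (((tendsto_pow_atTop_nhds_zero_of_lt_one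
    (r := (4 / 9 : ℝ)) (by norm_num) (by norm_num)).const_mul (9 / 4)).eventually_le_const
    (show 9 / 4 * 0 < (1 / m : ℝ) by simpa using hm))).exists
  obtain ⟨M, M0, hM⟩ := ((eventually_gt_atTop 0).and ((eventually_all_finset (Finset.range (m * l))).mpr
    fun i _ => (eventually_all_finset (Finset.Icc (-1 : ℤ) (m + 2))).mpr fun j _ =>
      (Metric.tendsto_nhds.mp (hs i (j / m))) _ (one_div_pos.mpr m0))).exists
  choose B b1 b2 using fun j => blk (m * l) (hz j)
  have k : ∀ n : ℕ, ∃ w : List ℕ, w.length = n * (m * l) ∧ ∀ u ∈ Icc (0 : ℝ) 1, ∀ t s : ℝ,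
      t + 1 / m ≤ s → cn t w u ≤ n * l + ∑ j ∈ Finset.range n, ∑ i ∈ Finset.range (m * l),
        ind (T^[i] (z j)) s ∧ ∑ j ∈ Finset.range n, ∑ i ∈ Finset.range (m * l),
        ind (T^[i] (z j)) t ≤ n * l + cn s w u := fun n => by
    induction n with
    | zero => exact ⟨[], by simp, by simp [cn]⟩
    | succ n ih =>
      obtain ⟨w, a, b⟩ := ih
      refine ⟨B n ++ w, by simp [a, b1, add_mul, add_comm], fun u hu t s h => ?_⟩
      have e := fun t => cn_eq t (B n) (hz n (m * l))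
      simp only [b1, b2] at e
      have c := Ioo_subset_Icc_self (hz n (m * l))
      simp only [cn_app, Finset.sum_range_succ _ n, e]
      push_cast
      exact ⟨by linarith [(b u hu t s h).1, cn_cmp (l := l) (t := t) (s := s) (by linarith) (B n) (hw_mem w hu) c],
        by linarith [(b u hu t s h).2, cn_cmp (l := l) (t := t) (s := s) (by linarith) (B n) c (hw_mem w hu)]⟩
  obtain ⟨w, a, b⟩ := k M
  refine ⟨w, fun u hu t ht => ?_⟩
  have M1 : (1 : ℝ) ≤ M := by exact_mod_cast M0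
  have l1 : (1 : ℝ) ≤ l := by exact_mod_cast h1
  have s : ∀ j : ℤ, -1 ≤ j → j ≤ m + 2 → |∑ j' ∈ Finset.range M, ∑ i ∈ Finset.range (m * l),
      ind (T^[i] (z j')) (j / m) - M * (m * l) * G (j / m)| ≤ M * l := fun j j1 j2 => by
    rw [Finset.sum_comm, show M * (m * l) * G (j / m) = ∑ _ ∈ Finset.range (m * l), M * G (j / m) by
      simp; ring, ← Finset.sum_sub_distrib]
    refine (Finset.abs_sum_le_sum_abs _ _).trans ((Finset.sum_le_card_nsmul _ _ (M / m : ℝ)
      fun i hi => ?_).trans_eq (by simp; field_simp))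
    have := (hM i hi j (Finset.mem_Icc.mpr ⟨j1, j2⟩)).le
    push_cast at this
    rw [Real.dist_eq, div_sub' (by positivity), abs_div, abs_of_pos (show (0 : ℝ) < M by positivity),
      div_le_iff₀ (by positivity)] at this
    exact this.trans_eq (by ring)
  have f1 := Int.floor_le (t * m)
  have f2 := Int.lt_floor_add_one (t * m)
  have f3 : 0 ≤ ⌊t * m⌋ := Int.floor_nonneg.mpr (mul_nonneg ht.1 m0.le)
  have f4 : ⌊t * m⌋ ≤ m := by exact_mod_cast f1.trans (mul_le_of_le_one_left m0.le ht.2)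
  have s1 := abs_le.mp (s (⌊t * m⌋ + 2) (by omega) (by omega))
  have s2 := abs_le.mp (s (⌊t * m⌋ - 1) (by omega) (by omega))
  push_cast at s1 s2
  generalize (⌊t * m⌋ : ℝ) = j at *
  have p1 : t + 1 / m ≤ (j + 2) / m := by rw [le_div_iff₀ m0, add_mul, one_div_mul_cancel m0.ne']; linarith
  have p2 : (j - 1) / m + 1 / m ≤ t := by rw [← add_div, div_le_iff₀ m0]; linarith
  have i0 : (0 : ℝ) < 1 / m := by positivity
  have g1 := mul_le_mul_of_nonneg_left ((G_le ht.1 ht.2).1 (show t ≤ (j + 2) / m by linarith))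
    (show (0 : ℝ) ≤ M * (m * l) by positivity)
  have g2 := mul_le_mul_of_nonneg_left ((G_le ht.1 ht.2).2 (show (j - 1) / m ≤ t by linarith))
    (show (0 : ℝ) ≤ M * (m * l) by positivity)
  have e1 : M * (m * l) * ((j + 2) / m) = M * l * (j + 2) := by field_simp
  have e2 : M * (m * l) * ((j - 1) / m) = M * l * (j - 1) := by field_simp
  have ml : (1 : ℝ) ≤ M * l := one_le_mul_of_one_le_of_one_le M1 l1
  have q1 := mul_le_mul_of_nonneg_left f1 (zero_le_one.trans ml)
  have q2 := mul_le_mul_of_nonneg_left f2.le (zero_le_one.trans ml)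
  rw [a]
  push_cast
  rw [show (7 : ℝ) / m * (M * (m * l)) = 7 * (M * l) by field_simp, ← le_sub_iff_add_le, abs_le]
  exact ⟨by linarith [(b u hu _ _ p2).2], by linarith [(b u hu _ _ p1).1]⟩

theorem concat {g : ℕ → ℝ} (hg : ∀ n, |g n| ≤ 1) {N L : ℕ → ℕ} (h0 : N 0 = 0)
    (hN : ∀ r, N (r + 1) = N r + (L r + 1)) {ε : ℕ → ℝ} (hε : Tendsto ε atTop (𝓝 0))
    (h : ∀ᶠ r in atTop, |∑ i ∈ Finset.range (L r + 1), g (N r + i)| ≤ ε r * (L r + 1) ∧
      (L r + 1 : ℝ) ≤ ε r * N r) :
    Tendsto (fun n : ℕ => (∑ i ∈ Finset.range n, g i) / n) atTop (𝓝 0) := by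
  have e : ∀ r, (N r : ℝ) = ∑ i ∈ Finset.range r, (L i + 1 : ℝ) ∧ ∑ i ∈ Finset.range (N r), g i =
      ∑ j ∈ Finset.range r, ∑ i ∈ Finset.range (L j + 1), g (N j + i) := fun r => by
    induction r with
    | zero => simp [h0]
    | succ r ih =>
      rw [hN, Finset.sum_range_add g, Finset.sum_range_succ _ r, Finset.sum_range_succ _ r, ← ih.1, ih.2]
      simp
  have sm : StrictMono N := strictMono_nat_of_lt_succ fun r => by rw [hN]; omega
  have o : (fun r => ∑ i ∈ Finset.range (L r + 1), g (N r + i)) =o[atTop] fun r => (L r + 1 : ℝ) :=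
    Asymptotics.isLittleO_iff.mpr fun c hc => by
      filter_upwards [h, hε.eventually_le_const hc] with r a b
      rw [Real.norm_of_nonneg (r := (L r + 1 : ℝ)) (by positivity)]
      exact a.1.trans (by gcongr)
  have o2 := o.sum_range (fun _ => by positivity) (by
    simp only [← fun r => (e r).1]; exact tendsto_natCast_atTop_atTop.comp sm.tendsto_atTop)
  simp only [← fun r => (e r).1, ← fun r => (e r).2] at o2
  refine Asymptotics.IsLittleO.tendsto_div_nhds_zero (Asymptotics.isLittleO_iff.mpr fun c hc => ?_)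
  obtain ⟨R, hR⟩ := eventually_atTop.mp ((o2.def (half_pos hc)).and (h.and
    (hε.eventually_le_const (half_pos hc))))
  filter_upwards [eventually_ge_atTop (N R)] with n hn
  obtain ⟨r, r1, r2, r3⟩ : ∃ r, R ≤ r ∧ N r ≤ n ∧ n < N (r + 1) := by
    induction n, hn using Nat.le_induction with
    | base => exact ⟨R, le_rfl, le_rfl, sm (by omega)⟩
    | succ n _ ih =>
      obtain ⟨r, a, b, c⟩ := ih
      by_cases d : n + 1 < N (r + 1)
      · exact ⟨r, a, by omega, d⟩
      · exact ⟨r + 1, by omega, by omega, by have := sm (show r + 1 < r + 1 + 1 by omega); omega⟩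
  obtain ⟨d, rfl⟩ := Nat.exists_eq_add_of_le r2
  obtain ⟨a, ⟨-, b⟩, b'⟩ := hR r r1
  have d1 : (d : ℝ) ≤ L r + 1 := by rw [hN] at r3; exact_mod_cast (by omega : d ≤ L r + 1)
  have d2 : |∑ i ∈ Finset.range d, g (N r + i)| ≤ d := (Finset.abs_sum_le_sum_abs _ _).trans
    ((Finset.sum_le_card_nsmul _ _ 1 fun i _ => hg _).trans_eq (by simp))
  rw [Finset.sum_range_add, Real.norm_natCast] at *
  push_cast
  have := mul_le_mul_of_nonneg_right b' (N r).cast_nonneg
  refine (abs_add_le _ _).trans ?_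
  nlinarith [show |_| ≤ _ from a, d.cast_nonneg (α := ℝ)]

theorem ex : ∃ x : ℝ, (∀ i, T^[i] x ∈ Ioo (0 : ℝ) 1) ∧ (∀ t ∈ Icc (0 : ℝ) 1, Tendsto (fun n : ℕ =>
    (∑ i ∈ Finset.range n, ind (T^[i] x) t) / n) atTop (𝓝 (F t))) ∧ ∀ R, ∃ N : ℕ, R ≤ N ∧
    ∑ i ∈ Finset.range N, ind (T^[i] (Int.fract (√2 * x + √2))) (1 / 2) ≤ 7 / 12 * N := by
  have s2 : (0 : ℝ) < √2 := by positivity
  have k : ∀ (P : List ℕ) (R : ℕ), ∃ A N : ℕ, R ≤ N ∧ ∀ u ∈ Icc (0 : ℝ) 1, ∑ i ∈ Finset.range N,
      ind (T^[i] (Int.fract (√2 * hw P (1 / (A + 1 + u)) + √2))) (1 / 2) ≤ 7 / 12 * N := fun P => by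
    have z : (0 : ℝ) ∈ Icc (0 : ℝ) 1 := by simp
    have d := D_pos P z
    have p : (0 : ℝ) < 2 / 3 * (3 / 2) ^ P.length := by positivity
    refine hug (X := fun v => √2 * hw P v + √2) (k := P.length) (c := √2 / (2 * D P 0 * (2 * D P 0)))
      (C := √2 / (2 / 3 * (3 / 2) ^ P.length * (2 / 3 * (3 / 2) ^ P.length)))
      ((continuousOn_const.mul (hw_cont P)).add continuousOn_const) ?_ (by positivity) (by positivity)
      fun u hu v hv h => ?_
    · obtain ⟨r, e⟩ := hw_rat P
      have := (hw_mem P z).1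
      rw [e] at this
      simpa [e, mul_add] using irrational_sqrt_two.mul_ratCast (q := r + 1)
        (by exact_mod_cast (show (r : ℝ) + 1 ≠ 0 by positivity))
    · rw [add_sub_add_right_eq_sub, ← mul_sub, mul_left_comm _ √2, hw_sub P hu hv, div_mul_eq_mul_div,
        div_mul_eq_mul_div, mul_div_assoc, mul_div_assoc]
      have := sub_nonneg.mpr h
      have := D_pos P hu
      have := D_pos P hv
      constructor <;> gcongr
      exacts [D_dist P hu z, D_dist P hv z, D_ge P hu, D_ge P hv]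
  choose A N hN hA using k
  choose V hV using fun m : ℕ => good (m + 1) m.succ_pos
  obtain ⟨m, m1, m2⟩ : ∃ m : ℕ → ℕ, Tendsto m atTop atTop ∧ ∀ r, ((V (m r)).length + 1) * m r ≤ r :=
    ⟨fun r => Nat.findGreatest (fun m => ((V m).length + 1) * m ≤ r) r, tendsto_atTop.mpr fun a => by
      filter_upwards [eventually_ge_atTop a, eventually_ge_atTop (((V a).length + 1) * a)] with r b c
      exact Nat.le_findGreatest b c,
      fun r => Nat.findGreatest_spec (P := fun m => ((V m).length + 1) * m ≤ r) r.zero_le (by simp)⟩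
  obtain ⟨P, p0, p1⟩ : ∃ P : ℕ → List ℕ, P 0 = [] ∧
      ∀ r, P (r + 1) = P r ++ (V (m r) ++ [A (P r ++ V (m r)) r]) :=
    ⟨fun r => r.rec [] fun r p => p ++ (V (m r) ++ [A (p ++ V (m r)) r]), rfl, fun _ => rfl⟩
  obtain ⟨x, hx⟩ := IsCompact.nonempty_iInter_of_sequence_nonempty_isCompact_isClosed
    (fun r => hw (P r) '' Icc 0 1) (fun r => by
      rintro _ ⟨u, hu, rfl⟩; rw [p1, hw_app]; exact ⟨_, hw_mem _ hu, rfl⟩)
    (fun r => (nonempty_Icc.mpr zero_le_one).image _) (isCompact_Icc.image_of_continuousOn (hw_cont _))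
    fun r => (isCompact_Icc.image_of_continuousOn (hw_cont _)).isClosed
  have c : ∀ (v : List ℕ) (a : ℕ) {u : ℝ}, u ∈ Icc (0 : ℝ) 1 → 0 < hw (v ++ [a]) u := fun v a u hu => by
    have := (hw_mem (v ++ [a]).tail hu).1
    rw [← List.cons_head_tail (l := v ++ [a]) (by simp), hw]; positivity
  have c' : ∀ (v : List ℕ) (a : ℕ) {u : ℝ}, u ∈ Icc (0 : ℝ) 1 → 0 < u → hw (v ++ [a]) u < 1 :=
    fun v a u hu h => by
      rw [hw_app]
      refine (hw_mem' v ⟨c [] a hu, ?_⟩).2
      change 1 / (a + 1 + u) < 1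
      exact (div_lt_one (by positivity)).mpr (by linarith [a.cast_nonneg (α := ℝ)])
  have y : ∀ r, ∃ u ∈ Ioo (0 : ℝ) 1, hw (P r) u = x := fun r => by
    obtain ⟨u, hu, e⟩ := mem_iInter.mp hx (r + 1 + 1)
    rw [p1, p1, hw_app, hw_app (P r)] at e
    exact ⟨_, ⟨c _ _ (hw_mem _ hu), c' _ _ (hw_mem _ hu) (c _ _ hu)⟩, e⟩
  have l : ∀ r, (P (r + 1)).length = (P r).length + ((V (m r)).length + 1) := fun r => by simp [p1]
  have l' : ∀ r, r ≤ (P r).length := fun r => by
    induction r with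
    | zero => simp
    | succ r ih => rw [l]; omega
  refine ⟨x, fun i => ?_, fun t ht => ?_, fun R => ⟨_, hN (P R ++ V (m R)) R, ?_⟩⟩
  · obtain ⟨u, hu, e⟩ := y i
    rw [← e, ← List.take_append_drop i (P i), hw_app]
    nth_rw 1 [← List.length_take_of_le (l' i)]
    rw [T_it _ (hw_mem' _ hu)]
    exact hw_mem' _ hu
  · have f : 0 ≤ F t ∧ F t ≤ 1 := ⟨F0 ▸ (F_mono le_rfl ht.1).1, F1 ▸ (F_mono ht.1 ht.2).1⟩
    have := concat (g := fun i => ind (T^[i] x) t - F t) (N := fun r => (P r).length)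
      (fun i => abs_le.mpr ⟨by linarith [ind_mem (T^[i] x) t], by linarith [ind_mem (T^[i] x) t]⟩)
      (by simp [p0]) l (ε := fun r => 7 / m r)
      (tendsto_const_nhds.div_atTop (tendsto_natCast_atTop_atTop.comp m1)) (by
        filter_upwards [m1.eventually_gt_atTop 0] with r hr
        have r0 : (0 : ℝ) < m r := by exact_mod_cast hr
        obtain ⟨u, hu, e⟩ := y (r + 1)
        constructor
        · have e1 : T^[(P r).length] x = hw (V (m r) ++ [A (P r ++ V (m r)) r]) u := by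
            rw [← e, p1, hw_app, T_it _ (hw_mem' _ hu)]
          have e2 := cn_eq t (V (m r) ++ [A (P r ++ V (m r)) r]) hu
          have e3 := hV (m r) _ (hw_mem [A (P r ++ V (m r)) r] (Ioo_subset_Icc_self hu)) t ht
          simp only [add_comm (P r).length, Function.iterate_add_apply, e1, Finset.sum_sub_distrib]
          rw [List.length_append, List.length_singleton, cn_app] at e2
          rw [e2, cn, cn]
          have i := ind_mem (hw [A (P r ++ V (m r)) r] u) t
          have : 7 / ((m r + 1 : ℕ) : ℝ) * (V (m r)).length ≤ 7 / m r * ((V (m r)).length + 1) := by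
            gcongr <;> simp
          have j := abs_le.mp (le_sub_iff_add_le.mpr (e3.trans this))
          simp only [Finset.sum_const, Finset.card_range, nsmul_eq_mul]
          push_cast
          exact abs_le.mpr ⟨by linarith, by linarith⟩
        · rw [div_mul_eq_mul_div, le_div_iff₀ r0]
          exact_mod_cast (m2 r).trans ((l' r).trans (by omega)))
    rw [← zero_add (F t)]
    refine (this.add_const (F t)).congr' ?_
    filter_upwards [eventually_gt_atTop 0] with n hn
    simp; field_simp; ring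
  · obtain ⟨u, hu, e⟩ := y (R + 1)
    rw [← e, p1, ← List.append_assoc, hw_app]
    exact hA _ _ u (Ioo_subset_Icc_self hu)

end Pool.Agent.H.MP_8d5d9c_nt
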